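import Pool.Agent.X116.FkC

/-!
# MP_bbe01f_an: the radial derivative characterisation of Fock spaces

Definitions (in `Pool.Agent.X116.Fk`), for `z : Fin n → ℂ`:

* `sq z = |z₁|² + ⋯ + |zₙ|²`;
* `Rad f z = ∑ z_i ∂f/∂z_i (z)`, the radial derivative, and `Rad^[N]` its `N`-fold iterate;
* `InLpAlpha p α f` : `f(z) e^{-α|z|²/2}` is in `L^p(ℂⁿ)` for Lebesgue measure, i.e. `f ∈ L^p_α`.
-/

set_option autoImplicit false

namespace Pool.Agent.Results.MP_bbe01f_an.RadialFock

open Pool.Agent.X116.Fk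
open scoped ENNReal

/-- **Radial derivative characterisation of Fock spaces.** For every `n`, every `0 < p ≤ ∞`, every
`α > 0`, every `N ≥ 1` and every entire function `f` on `ℂⁿ`: `f` is in `F^p_α` if and only if
`R^N f(z) / (1 + |z|²)^N` is in `L^p_α`. -/
theorem result (n : ℕ) (p : ℝ≥0∞) (hp : p ≠ 0) (α : ℝ) (hα : 0 < α) (N : ℕ)
    (f : (Fin n → ℂ) → ℂ) (hf : Differentiable ℂ f) :
    InLpAlpha p α f ↔
      InLpAlpha p α (fun z => Rad^[N] f z / (1 + Pool.Agent.X116.Fk.sq z : ℝ) ^ N) :=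
  main hα hp hf N

end Pool.Agent.Results.MP_bbe01f_an.RadialFock
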